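import Pool.Graph.R_pool_sql_team_seeded_63374d34.N303.KQ.Des

/-!
# The orthogonal projection of the matrices onto the block algebra
-/

set_option autoImplicit false

namespace Pool.Agent.Helper52.CK

open Matrix Finset
open scoped ComplexOrder
open Pool.Agent.W661.RC Pool.Agent.W683.RC Pool.Agent.N303.KQ

noncomputable section

variable {d : ℕ} {O : Out d}

/-- the orthogonal projection onto the block algebra -/
def E (O : Out d) (x : Mt d) : Mt d := JJ (Jb O) (kp (Jb O) x)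

theorem E_mem (x : Mt d) : E O x ∈ O.alg := JJ_mem _

theorem Jb_mem (y : Yx O) : Jb O y ∈ O.alg := by
  rw [Jb, ← Am_smul]
  apply Am_mem
  intro i j hij
  rw [Matrix.smul_apply, BD_eu y.2.1 i j hij, smul_zero]

theorem ip_E {a : Mt d} (ha : a ∈ O.alg) (x : Mt d) : ip a (E O x) = ip a x := by
  have h1 : a = JJ (Jb O) (kp (Jb O) a) := (JJ_kp_alg ha).symm
  rw [h1, E, ip_JJ_JJ onf_Jb]
  rw [Pool.Agent.N303.KQ.JJ, ip_sum_left]
  refine sum_congr rfl fun y _ => ?_
  rw [ip_smul_left]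
  rfl

theorem E_unique {y : Mt d} (hy : y ∈ O.alg) (x : Mt d) (h : ∀ a ∈ O.alg, ip a y = ip a x) :
    E O x = y := by
  have h1 : kp (Jb O) x = kp (Jb O) y := by
    funext z
    exact (h _ (Jb_mem z)).symm
  rw [E, h1, JJ_kp_alg hy]

theorem E_alg {a : Mt d} (ha : a ∈ O.alg) : E O a = a := JJ_kp_alg ha

theorem E_sub (x y : Mt d) : E O (x - y) = E O x - E O y := by
  rw [E, kp_sub, JJ_sub]; rfl

theorem E_add (x y : Mt d) : E O (x + y) = E O x + E O y := by
  rw [E, kp_add, JJ_add]; rfl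

theorem tr_E {a : Mt d} (ha : a ∈ O.alg) (x : Mt d) :
    Matrix.trace (a * E O x) = Matrix.trace (a * x) := by
  have h := ip_E (alg_conjTranspose ha) x
  rw [ip, ip, Matrix.conjTranspose_conjTranspose] at h
  exact h

theorem E_conjTranspose (x : Mt d) : (E O x)ᴴ = E O xᴴ := by
  symm
  refine E_unique (alg_conjTranspose (E_mem x)) _ fun a ha => ?_
  have h1 : ∀ z : Mt d, ip a zᴴ = star (Matrix.trace (a * z)) := by
    intro z
    rw [ip, ← Matrix.conjTranspose_mul, Matrix.trace_conjTranspose, Matrix.trace_mul_comm]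
  rw [h1, h1, tr_E ha]

theorem E_mul_left {a : Mt d} (ha : a ∈ O.alg) (x : Mt d) : E O (a * x) = a * E O x := by
  refine E_unique (alg_mul ha (E_mem x)) _ fun b hb => ?_
  have h1 : ∀ z : Mt d, ip b (a * z) = Matrix.trace ((bᴴ * a) * z) := by
    intro z
    rw [ip, Matrix.mul_assoc]
  rw [h1, h1, tr_E (alg_mul (alg_conjTranspose hb) ha)]

theorem E_mul_right {a : Mt d} (ha : a ∈ O.alg) (x : Mt d) : E O (x * a) = E O x * a := by
  refine E_unique (alg_mul (E_mem x) ha) _ fun b hb => ?_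
  have h1 : ∀ z : Mt d, ip b (z * a) = Matrix.trace ((a * bᴴ) * z) := by
    intro z
    rw [ip, ← Matrix.mul_assoc, Matrix.trace_mul_comm, ← Matrix.mul_assoc]
  rw [h1, h1, tr_E (alg_mul ha (alg_conjTranspose hb))]

theorem pO_mem : pO O ∈ O.alg := by
  obtain ⟨ω⟩ : Nonempty (Om O) := ⟨(fun _ => true, ⟨1, fun _ => rfl⟩)⟩
  rw [← vv_conj_mul ω]
  exact alg_mul (alg_conjTranspose (vv_mem ω)) (vv_mem ω)

theorem alg_mul_pO {a : Mt d} (ha : a ∈ O.alg) : a * pO O = a := by
  have h := congrArg Matrix.conjTranspose (pO_mul_alg (alg_conjTranspose ha))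
  rw [Matrix.conjTranspose_mul, Matrix.conjTranspose_conjTranspose, pO_pr.1] at h
  exact h

theorem E_one : E O 1 = pO O := by
  refine E_unique pO_mem _ fun a ha => ?_
  rw [ip, ip, Matrix.mul_one, alg_mul_pO (alg_conjTranspose ha)]

/-! ### Positivity -/

/-- a self-adjoint element of the block algebra has a good self-adjoint coefficient matrix -/
theorem exists_coef {y : Mt d} (hy : y ∈ O.alg) (hs : yᴴ = y) :
    ∃ α, BD O α ∧ αᴴ = α ∧ (∀ i j, O.l (O.c i) = 0 → α i j = 0) ∧ y = Am O α := by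
  obtain ⟨α, hα, rfl⟩ := mem_alg.1 hy
  let α1 : Matrix O.I O.I ℂ := fun i j => if O.l (O.c i) = 0 then 0 else α i j
  have hB1 : BD O α1 := by
    intro i j hij
    simp only [α1]
    rw [hα i j hij, ite_self]
  have h1 : Bm O α1 = Bm O α := by
    ext x y
    simp only [Bm, α1]
    have h2 : O.l (O.c x.1) ≠ 0 := by
      have := x.2.2
      omega
    rw [if_neg h2]
  have h1' : Am O α1 = Am O α := by rw [Am, h1, Am]
  refine ⟨(1 / 2 : ℂ) • (α1 + α1ᴴ), ?_, ?_, ?_, ?_⟩
  · intro i j hij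
    rw [Matrix.smul_apply, Matrix.add_apply, hB1 i j hij, hB1.conjTranspose i j hij]
    simp
  · rw [Matrix.conjTranspose_smul, Matrix.conjTranspose_add, Matrix.conjTranspose_conjTranspose,
      add_comm]
    congr 1
    simp
  · intro i j hl
    have h3 : α1 i j = 0 := by simp only [α1]; rw [if_pos hl]
    have h4 : α1ᴴ i j = 0 := by
      by_cases hij : O.c i = O.c j
      · rw [Matrix.conjTranspose_apply]
        simp only [α1]
        rw [← hij, if_pos hl, star_zero]
      · exact hB1.conjTranspose i j hij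
    rw [Matrix.smul_apply, Matrix.add_apply, h3, h4]
    simp
  · rw [Am_smul, Am_add, h1', ← Am_conjTranspose, h1', hs, ← two_smul ℂ, smul_smul]
    norm_num

/-- coefficients of the test element -/
def tw (O : Out d) (j : O.I) : ℂ := (((√((mc O j : ℝ) * O.l (O.c j)))⁻¹ : ℝ) : ℂ)

theorem tw_mul (j : O.I) : tw O j * tw O j = ((mc O j : ℂ) * O.l (O.c j))⁻¹ := by
  rw [tw, ← Complex.ofReal_mul, ← mul_inv, Real.mul_self_sqrt (by positivity)]
  push_cast
  rfl

theorem star_tw (j : O.I) : star (tw O j) = tw O j := Complex.conj_ofReal _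

/-- the test element -/
def tb (O : Out d) (ξ : O.I → ℂ) : Matrix O.I O.I ℂ :=
  fun j m => if O.c j = O.c m then tw O j * star (ξ m) else 0

theorem BD_tb (ξ : O.I → ℂ) : BD O (tb O ξ) := by
  intro i j hij
  rw [tb, if_neg hij]

theorem tb_sum (ξ : O.I → ℂ) (i m : O.I) :
    ∑ j, star (tb O ξ j i) * tb O ξ j m =
      if O.c i = O.c m then ((O.l (O.c i) : ℂ))⁻¹ * (ξ i * star (ξ m)) else 0 := by
  by_cases h : O.c i = O.c m
  · rw [if_pos h]
    have h1 : ∀ j, star (tb O ξ j i) * tb O ξ j m =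
        if O.c j = O.c i then ((mc O i : ℂ))⁻¹ * (((O.l (O.c i) : ℂ))⁻¹ * (ξ i * star (ξ m)))
          else 0 := by
      intro j
      by_cases h2 : O.c j = O.c i
      · rw [if_pos h2, tb, tb, if_pos h2, if_pos (h2.trans h), star_mul, star_star, star_tw]
        have h3 : mc O j = mc O i := by rw [mc, mc, h2]
        have h4 := tw_mul (O := O) j
        rw [h3, h2, mul_inv] at h4
        linear_combination (ξ i * star (ξ m)) * h4
      · rw [if_neg h2, tb, if_neg h2, star_zero, zero_mul]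
    rw [sum_congr rfl fun j _ => h1 j, ← sum_filter, sum_const, nsmul_eq_mul, ← mul_assoc]
    have h5 : ((univ.filter fun j : O.I => O.c j = O.c i).card : ℂ) * ((mc O i : ℂ))⁻¹ = 1 := by
      have : (mc O i : ℂ) ≠ 0 := by exact_mod_cast (mc_pos i).ne'
      exact mul_inv_cancel₀ this
    rw [h5, one_mul]
  · rw [if_neg h]
    refine sum_eq_zero fun j _ => ?_
    by_cases h2 : O.c j = O.c i
    · rw [show tb O ξ j m = 0 by rw [tb, if_neg (fun h3 => h (h2.symm.trans h3))], mul_zero]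
    · rw [show tb O ξ j i = 0 by rw [tb, if_neg h2], star_zero, zero_mul]

theorem ip_tb {α : Matrix O.I O.I ℂ} (hα : BD O α) (h0 : ∀ i j, O.l (O.c i) = 0 → α i j = 0)
    (ξ : O.I → ℂ) :
    ip (Am O (tb O ξ)) (Am O (tb O ξ) * Am O α) = star ξ ⬝ᵥ (α *ᵥ ξ) := by
  rw [Am_mul (BD_tb ξ), ip_Am _ _ (BD_tb ξ)]
  have h1 : ∀ i, ∑ j, star (tb O ξ j i) * (tb O ξ * α) j i * (O.l (O.c i) : ℂ) =
      ∑ m, star (ξ m) * (α m i * ξ i) := by
    intro i
    have h2 : ∀ j, star (tb O ξ j i) * (tb O ξ * α) j i * (O.l (O.c i) : ℂ) =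
        ∑ m, (star (tb O ξ j i) * tb O ξ j m) * (α m i * (O.l (O.c i) : ℂ)) := by
      intro j
      rw [Matrix.mul_apply, mul_sum, sum_mul]
      refine sum_congr rfl fun m _ => ?_
      ring
    rw [sum_congr rfl fun j _ => h2 j, sum_comm]
    refine sum_congr rfl fun m _ => ?_
    rw [← sum_mul, tb_sum]
    by_cases h3 : O.c i = O.c m
    · rw [if_pos h3]
      by_cases h4 : O.l (O.c m) = 0
      · rw [h0 m i h4]
        simp
      · rw [h3]
        have : (O.l (O.c m) : ℂ) ≠ 0 := by exact_mod_cast h4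
        field_simp
    · rw [if_neg h3, hα m i (fun h => h3 h.symm)]
      simp
  rw [sum_congr rfl fun i _ => h1 i, sum_comm, dotProduct]
  refine sum_congr rfl fun m _ => ?_
  rw [mulVec, dotProduct, ← mul_sum]
  rfl

theorem Am_psd {α : Matrix O.I O.I ℂ} (h : α.PosSemidef) : (Am O α).PosSemidef := by
  rw [Am]
  refine PosSemidef.mul_mul_conjTranspose_same ?_ _
  -- the index set is finite
  obtain ⟨N, hN⟩ : ∃ N : ℕ, ∀ i : O.I, O.l (O.c i) ≤ N :=
    ⟨∑ i : O.I, O.l (O.c i), fun i => single_le_sum (f := fun i : O.I => O.l (O.c i))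
      (fun _ _ => Nat.zero_le _) (mem_univ i)⟩
  have h1 : (Matrix.kroneckerMap (fun a b => a * b) α (1 : Matrix (Fin N) (Fin N) ℂ)).PosSemidef :=
    h.kronecker PosSemidef.one
  have h2 := h1.submatrix (fun x : Jx O.c O.l => (x.1, (⟨x.2, x.2.2.trans_le (hN x.1)⟩ : Fin N)))
  convert h2 using 1
  ext x y
  simp only [Bm, Matrix.submatrix_apply, Matrix.kroneckerMap_apply, Matrix.one_apply, Fin.mk.injEq]
  split_ifs <;> simp

theorem psd_of_test {y : Mt d} (hy : y ∈ O.alg) (hs : yᴴ = y)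
    (h : ∀ b ∈ O.alg, 0 ≤ ip b (b * y)) : y.PosSemidef := by
  obtain ⟨α, hα, hα2, h0, rfl⟩ := exists_coef hy hs
  refine Am_psd (PosSemidef.of_dotProduct_mulVec_nonneg hα2 fun ξ => ?_)
  rw [← ip_tb hα h0 ξ]
  exact h _ (Am_mem (BD_tb ξ))

theorem trace_psd_nonneg {n : Type} [Fintype n] {x : Matrix n n ℂ} (hx : x.PosSemidef) :
    0 ≤ Matrix.trace x := hx.trace_nonneg

theorem E_psd {x : Mt d} (hx : x.PosSemidef) : (E O x).PosSemidef := by
  refine psd_of_test (E_mem x) ?_ fun b hb => ?_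
  · rw [E_conjTranspose, hx.1]
  · have h1 : ip b (b * E O x) = Matrix.trace (b * x * bᴴ) := by
      rw [← E_mul_left hb, ip_E hb, ip, Matrix.trace_mul_comm]
    rw [h1]
    exact (hx.mul_mul_conjTranspose_same b).trace_nonneg

/-- Kadison's inequality -/
theorem E_kad (x : Mt d) : Le ((E O x)ᴴ * E O x) (E O (xᴴ * x)) := by
  have h1 : (E O ((x - E O x)ᴴ * (x - E O x))).PosSemidef :=
    E_psd (posSemidef_conjTranspose_mul_self _)
  have h2 : E O ((x - E O x)ᴴ * (x - E O x)) = E O (xᴴ * x) - (E O x)ᴴ * E O x := by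
    have e1 : (x - E O x)ᴴ * (x - E O x) =
        xᴴ * x - xᴴ * E O x - ((E O x)ᴴ * x - (E O x)ᴴ * E O x) := by
      rw [Matrix.conjTranspose_sub, Matrix.sub_mul, Matrix.mul_sub, Matrix.mul_sub]
    rw [e1, E_sub, E_sub, E_sub, E_mul_right (E_mem x), E_mul_left (alg_conjTranspose (E_mem x)),
      E_mul_left (alg_conjTranspose (E_mem x)), E_alg (E_mem x), E_conjTranspose]
    abel
  rw [Le, ← h2]
  exact h1

theorem E_mono {x y : Mt d} (h : Le x y) : Le (E O x) (E O y) := by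
  rw [Le, ← E_sub]
  exact E_psd h

theorem E_contr {x : Mt d} (h : Le (xᴴ * x) 1) : Le ((E O x)ᴴ * E O x) 1 := by
  refine Le_trans (E_kad x) (Le_trans (E_mono h) ?_)
  rw [E_one]
  exact pr_le_one pO_pr

end

end Pool.Agent.Helper52.CK
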