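import Pool.Agent.Helper3.CK.Stm
import Pool.Agent.Helper52.CK.EBcore

/-!
# EB: the orthogonal projection of the matrices onto the block algebra
-/

set_option autoImplicit false

namespace Pool.Agent.Helper52.CK

open Matrix Finset
open scoped ComplexOrder
open Pool.Agent.W661.RC Pool.Agent.W683.RC Pool.Agent.N303.KQ

theorem EB_eq {d : ℕ} (O : Out d) (x : Mt d) : Pool.Agent.Helper3.CK.EB O x = E O x := rfl

theorem s_EB : Pool.Agent.Helper3.CK.S_EB := by
  intro d O
  refine ⟨fun x hx => E_psd hx, fun x hx => E_contr hx, fun x => E_conjTranspose x,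
    fun a ha x => ⟨E_mul_left ha x, E_mul_right ha x⟩, fun a ha => E_alg ha, E_one,
    fun a ha x => tr_E ha x⟩

end Pool.Agent.Helper52.CK
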