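import Pool.Graph.R_pool_sql_team_seeded_63374d34.N169.NS.TT

/-!
# MON: `E_3(F[X])` is generated by five elements which do not generate it as a monoid
-/

set_option autoImplicit false

namespace Pool.Agent.Helper52.CK.MON

open Polynomial
open Pool.Agent.N44.NS (E3 el)
open Pool.Agent.N169.NS

theorem prime257 : Nat.Prime 257 := by norm_num

instance fact257' : Fact (Nat.Prime 257) := ⟨prime257⟩

/-- the field with 257 elements -/
abbrev F : Type := ZMod 257

/-! ### Degrees -/

theorem deg_mul_lt {p q : F[X]} {a b : ℕ} (hp : degree p < (a : ℕ)) (hq : degree q ≤ (b : ℕ)) :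
    degree (p * q) < ((a + b : ℕ) : WithBot ℕ) := by
  by_cases h0 : p = 0
  · rw [h0, zero_mul, degree_zero]
    exact WithBot.bot_lt_coe _
  by_cases h1 : q = 0
  · rw [h1, mul_zero, degree_zero]
    exact WithBot.bot_lt_coe _
  rw [degree_mul, degree_eq_natDegree h0, degree_eq_natDegree h1]
  rw [degree_eq_natDegree h0] at hp
  rw [degree_eq_natDegree h1] at hq
  norm_cast at hp hq ⊢
  omega

theorem deg_mul_lt' {p q : F[X]} {a b : ℕ} (hp : degree p ≤ (a : ℕ)) (hq : degree q < (b : ℕ)) :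
    degree (p * q) < ((a + b : ℕ) : WithBot ℕ) := by
  rw [mul_comm p q, Nat.add_comm]
  exact deg_mul_lt hq hp

theorem deg_mul_le {p q : F[X]} {a b : ℕ} (hp : degree p ≤ (a : ℕ)) (hq : degree q ≤ (b : ℕ)) :
    degree (p * q) ≤ ((a + b : ℕ) : WithBot ℕ) := by
  refine (degree_mul_le _ _).trans ?_
  push_cast
  exact add_le_add hp hq

theorem deg_add_lt {p q : F[X]} {a : WithBot ℕ} (hp : degree p < a) (hq : degree q < a) :
    degree (p + q) < a := (degree_add_le _ _).trans_lt (max_lt hp hq)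

theorem deg_add_le {p q : F[X]} {a : WithBot ℕ} (hp : degree p ≤ a) (hq : degree q ≤ a) :
    degree (p + q) ≤ a := (degree_add_le _ _).trans (max_le hp hq)

/-- matrices whose corner entry dominates -/
def Dm (M : Matrix (Fin 3) (Fin 3) F[X]) : Prop :=
  ∃ D : ℕ, degree (M 2 2) = D ∧ (∀ i, degree (M i 2) ≤ D) ∧
    ∀ i j, j ≠ 2 → degree (M i j) < D

theorem Dm.mul {M N : Matrix (Fin 3) (Fin 3) F[X]} (hM : Dm M) (hN : Dm N) : Dm (M * N) := by
  obtain ⟨a, ha, ha1, ha2⟩ := hM
  obtain ⟨b, hb, hb1, hb2⟩ := hN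
  have e : ∀ i j, (M * N) i j = M i 0 * N 0 j + M i 1 * N 1 j + M i 2 * N 2 j := by
    intro i j
    rw [Matrix.mul_apply, Fin.sum_univ_three]
  have s : ∀ i j, degree (M i 0 * N 0 j + M i 1 * N 1 j) < ((a + b : ℕ) : WithBot ℕ) := by
    intro i j
    have hj : ∀ k, degree (N k j) ≤ (b : ℕ) := by
      intro k
      by_cases h : j = 2
      · rw [h]; exact hb1 k
      · exact (hb2 k j h).le
    exact deg_add_lt (deg_mul_lt (ha2 i 0 (by decide)) (hj 0))
      (deg_mul_lt (ha2 i 1 (by decide)) (hj 1))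
  refine ⟨a + b, ?_, ?_, ?_⟩
  · rw [e, degree_add_eq_right_of_degree_lt, degree_mul, ha, hb]
    · push_cast; rfl
    · rw [degree_mul, ha, hb]
      exact_mod_cast s 2 2
  · intro i
    rw [e]
    exact deg_add_le (s i 2).le (deg_mul_le (ha1 i) (hb1 2))
  · intro i j hj
    rw [e]
    exact deg_add_lt (s i j) (deg_mul_lt' (ha1 i) (hb2 2 j hj))

/-! ### The generators -/

theorem h12 : (1 : Fin 3) ≠ 2 := by decide
theorem h21 : (2 : Fin 3) ≠ 1 := by decide
theorem h01 : (0 : Fin 3) ≠ 1 := by decide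
theorem h20 : (2 : Fin 3) ≠ 0 := by decide

/-- the first generator -/
noncomputable def q0 : E3 F[X] :=
  eE 1 2 h12 1 * eE 2 1 h21 (-1) * eE 1 2 h12 1 * eE 1 2 h12 (-X ^ 2)

/-- the underlying matrix -/
def mt (x : E3 F[X]) : Matrix (Fin 3) (Fin 3) F[X] := ((x : (Matrix (Fin 3) (Fin 3) F[X])ˣ) : _)

theorem mt_mul (x y : E3 F[X]) : mt (x * y) = mt x * mt y := rfl

theorem mt_one : mt 1 = 1 := rfl

theorem mt_eE (i j : Fin 3) (h : i ≠ j) (a : F[X]) : mt (eE i j h a) = 1 + Matrix.single i j a := rfl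

theorem mt_q0 : mt q0 = !![1, 0, 0; 0, 0, 1; 0, -1, X ^ 2] := by
  rw [q0, mt_mul, mt_mul, mt_mul, mt_eE, mt_eE, mt_eE]
  ext i j : 2
  fin_cases i <;> fin_cases j <;>
    simp [Matrix.mul_apply, Fin.sum_univ_three, Matrix.single_apply, Matrix.one_apply]

theorem mt_q0_inv : mt q0⁻¹ = !![1, 0, 0; 0, X ^ 2, -1; 0, 1, 0] := by
  change (((q0 : (Matrix (Fin 3) (Fin 3) F[X])ˣ)⁻¹ : (Matrix (Fin 3) (Fin 3) F[X])ˣ) :
    Matrix (Fin 3) (Fin 3) F[X]) = _
  apply Units.inv_eq_of_mul_eq_one_right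
  change mt q0 * _ = _
  rw [mt_q0]
  ext i j : 2
  fin_cases i <;> fin_cases j <;>
    simp [Matrix.mul_apply, Fin.sum_univ_three, Matrix.one_apply]

/-- the elementary factors of the generators -/
noncomputable def ee : Fin 5 → E3 F[X] :=
  ![1, eE 0 1 h01 1, eE 1 2 h12 1, eE 2 0 h20 1, eE 2 0 h20 X]

/-- the generators -/
noncomputable def gg (i : Fin 5) : E3 F[X] := ee i * q0

theorem Dm_gg (i : Fin 5) : Dm (mt (gg i)) := by
  have hX2 : degree (X ^ 2 : F[X]) = (2 : ℕ) := degree_X_pow 2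
  have h0 : degree (0 : F[X]) < (2 : ℕ) := by rw [degree_zero]; exact WithBot.bot_lt_coe _
  have h1 : degree (1 : F[X]) < (2 : ℕ) := by rw [degree_one]; exact_mod_cast Nat.zero_lt_two
  have hn : degree (-1 : F[X]) < (2 : ℕ) := by rw [degree_neg]; exact h1
  have hX : degree (X : F[X]) < (2 : ℕ) := by rw [degree_X]; exact_mod_cast Nat.one_lt_two
  have hs : degree (1 + X ^ 2 : F[X]) ≤ (2 : ℕ) := deg_add_le h1.le hX2.le
  have key : ∀ M : Matrix (Fin 3) (Fin 3) F[X], degree (M 2 2) = (2 : ℕ) →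
      degree (M 0 2) ≤ (2 : ℕ) → degree (M 1 2) ≤ (2 : ℕ) →
      degree (M 0 0) < (2 : ℕ) → degree (M 0 1) < (2 : ℕ) → degree (M 1 0) < (2 : ℕ) →
      degree (M 1 1) < (2 : ℕ) → degree (M 2 0) < (2 : ℕ) → degree (M 2 1) < (2 : ℕ) →
      Dm M := by
    intro M a b c d e f g h k
    refine ⟨2, a, ?_, ?_⟩
    · intro i
      fin_cases i
      · exact b
      · exact c
      · exact a.le
    · intro i j hj
      fin_cases i <;> fin_cases j
      · exact d
      · exact e
      · exact absurd rfl hj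
      · exact f
      · exact g
      · exact absurd rfl hj
      · exact h
      · exact k
      · exact absurd rfl hj
  have hm : mt (gg i) = mt (ee i) * mt q0 := rfl
  rw [hm, mt_q0]
  fin_cases i
  · change Dm (mt 1 * _)
    rw [mt_one, one_mul]
    apply key <;> simp <;> assumption
  · change Dm (mt (eE 0 1 h01 1) * _)
    rw [mt_eE]
    apply key <;> simp [Matrix.mul_apply, Fin.sum_univ_three, Matrix.single_apply, Matrix.one_apply]
      <;> assumption
  · change Dm (mt (eE 1 2 h12 1) * _)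
    rw [mt_eE]
    apply key <;> simp [Matrix.mul_apply, Fin.sum_univ_three, Matrix.single_apply, Matrix.one_apply]
      <;> assumption
  · change Dm (mt (eE 2 0 h20 1) * _)
    rw [mt_eE]
    apply key <;> simp [Matrix.mul_apply, Fin.sum_univ_three, Matrix.single_apply, Matrix.one_apply]
      <;> assumption
  · change Dm (mt (eE 2 0 h20 X) * _)
    rw [mt_eE]
    apply key <;> simp [Matrix.mul_apply, Fin.sum_univ_three, Matrix.single_apply, Matrix.one_apply]
      <;> assumption

theorem not_mem : (gg 0)⁻¹ ∉ Submonoid.closure (Set.range gg) := by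
  intro h
  have hP : ∀ x ∈ Submonoid.closure (Set.range gg), mt x = 1 ∨ Dm (mt x) := by
    intro x hx
    induction hx using Submonoid.closure_induction with
    | mem x hx =>
      obtain ⟨i, rfl⟩ := hx
      exact Or.inr (Dm_gg i)
    | one => exact Or.inl rfl
    | mul x y _ _ h1 h2 =>
      rcases h1 with h1 | h1
      · rw [mt_mul, h1, one_mul]
        exact h2
      · rcases h2 with h2 | h2
        · rw [mt_mul, h2, mul_one]
          exact Or.inr h1
        · exact Or.inr (h1.mul h2)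
  have hg0 : gg 0 = q0 := one_mul _
  rw [hg0] at h
  rcases hP _ h with h1 | ⟨D, h1, _, h2⟩
  · rw [mt_q0_inv] at h1
    have := congrFun (congrFun h1 1) 2
    simp at this
  · rw [mt_q0_inv] at h1
    simp at h1

theorem closure_gg : Subgroup.closure (Set.range gg) = ⊤ := by
  set S := Subgroup.closure (Set.range gg) with hS
  have hg : ∀ i, gg i ∈ S := fun i => Subgroup.subset_closure ⟨i, rfl⟩
  have hg0 : gg 0 = q0 := one_mul _
  have he : ∀ i, ee i ∈ S := by
    intro i
    have h1 : ee i = gg i * (gg 0)⁻¹ := by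
      rw [hg0, gg, mul_inv_cancel_right]
    rw [h1]
    exact mul_mem (hg i) (inv_mem (hg 0))
  have h1 : eE 0 1 h01 (1 : F[X]) ∈ S := he 1
  have h2 : eE 1 2 h12 (1 : F[X]) ∈ S := he 2
  have h3 : eE 2 0 h20 (1 : F[X]) ∈ S := he 3
  have h4 : eE 2 0 h20 (X : F[X]) ∈ S := he 4
  have hsc : ∀ (i j : Fin 3) (h : i ≠ j) (a : F[X]), eE i j h a ∈ S → ∀ c : F,
      eE i j h (c • a) ∈ S := by
    intro i j h a ha c
    obtain ⟨k, rfl⟩ := ZMod.natCast_zmod_surjective c
    rw [Nat.cast_smul_eq_nsmul]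
    induction k with
    | zero =>
      rw [zero_smul, eE_zero]
      exact one_mem _
    | succ k ih =>
      rw [succ_nsmul, eE_add]
      exact mul_mem ih ha
  have hgen := gen (K := F) (fun _ : Fin 4 => (X : F[X])) (by
    have : Set.range (fun _ : Fin 4 => (X : F[X])) = {X} := Set.range_const
    rw [this]
    exact Polynomial.adjoin_X)
  rw [eq_top_iff, ← hgen, Subgroup.closure_le]
  rintro x ⟨n, t, rfl⟩
  rw [ul]
  apply hsc
  fin_cases n
  · exact h1
  · exact h2
  · exact h3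
  · exact h4
  · exact h4
  · exact h4
  · exact h4

end Pool.Agent.Helper52.CK.MON
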