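import Pool.Agent.Helper3.CK.Stm2
import Pool.Agent.Helper52.CK.MONcore

/-!
# MON: `E_3(F[X])` is generated by five elements which do not generate it as a monoid
-/

set_option autoImplicit false

namespace Pool.Agent.Helper52.CK

theorem s_MON : Pool.Agent.Helper3.CK.S_MON :=
  ⟨MON.gg, MON.closure_gg, 0, MON.not_mem⟩

end Pool.Agent.Helper52.CK
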